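import Pool.Agent.K1H77.PA.Stm

set_option autoImplicit false

open Module Pool.Agent.K1H77.PA

namespace Pool.Agent.K1H58.PA

variable {K L σ Q : Type} [Field K] [Field L] [Algebra K L]

/-- the classes of nonzero elements modulo the subfield -/
def Qt (K L : Type) [Field K] [Field L] [Algebra K L] : Type :=
  Lˣ ⧸ (Units.map (algebraMap K L).toMonoidHom).range

instance : CommGroup (Qt K L) := QuotientGroup.Quotient.commGroup _

/-- the class of a unit -/
def mkq (K : Type) {L : Type} [Field K] [Field L] [Algebra K L] : Lˣ →* Qt K L :=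
  QuotientGroup.mk' _

theorem mkq_eq_one {u : Lˣ} : mkq K u = 1 ↔ ∃ κ : Kˣ, Units.map (algebraMap K L).toMonoidHom κ = u := by
  have h := QuotientGroup.ker_mk' (Units.map (algebraMap K L).toMonoidHom).range
  have h2 : u ∈ (QuotientGroup.mk' (Units.map (algebraMap K L).toMonoidHom).range).ker ↔
      u ∈ (Units.map (algebraMap K L).toMonoidHom).range := by rw [h]
  exact h2

open Classical in
/-- the class of an element -/
noncomputable def cls (K : Type) {L : Type} [Field K] [Field L] [Algebra K L] (x : L) : Qt K L :=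
  if h : x ≠ 0 then mkq K (Units.mk0 x h) else 1

theorem cls_of {x : L} (hx : x ≠ 0) : cls K x = mkq K (Units.mk0 x hx) := dif_pos hx

theorem cls_mul {x y : L} (hx : x ≠ 0) (hy : y ≠ 0) : cls K (x * y) = cls K x * cls K y := by
  rw [cls_of hx, cls_of hy, cls_of (mul_ne_zero hx hy), ← map_mul]
  congr 1
  ext
  simp

theorem cls_one : cls K (1 : L) = 1 := by
  rw [cls_of one_ne_zero]
  have : Units.mk0 (1 : L) one_ne_zero = 1 := by ext; simp
  rw [this, map_one]

/-- a representative -/
noncomputable def rep (x : Qt K L) : L :=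
  ((Quotient.out (s := QuotientGroup.leftRel (Units.map (algebraMap K L).toMonoidHom).range) x : Lˣ) : L)

theorem rep_ne (x : Qt K L) : rep x ≠ 0 := Units.ne_zero _

theorem cls_rep (x : Qt K L) : cls K (rep x) = x := by
  rw [cls_of (rep_ne x)]
  have : Units.mk0 (rep x) (rep_ne x) = (Quotient.out (s := QuotientGroup.leftRel
      (Units.map (algebraMap K L).toMonoidHom).range) x : Lˣ) := by
    ext; simp [rep]
  rw [this]
  exact Quotient.out_eq _

theorem cls_eq {x y : L} (hx : x ≠ 0) (hy : y ≠ 0) (h : cls K x = cls K y) :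
    ∃ κ : K, algebraMap K L κ * y = x := by
  rw [cls_of hx, cls_of hy, ← div_eq_one, ← map_div, mkq_eq_one] at h
  obtain ⟨u, hu⟩ := h
  have h1 : algebraMap K L (u : K) = x / y := by
    have := congrArg (fun z : Lˣ => (z : L)) hu
    simpa using this
  refine ⟨(u : K), ?_⟩
  rw [h1]
  field_simp

theorem cls_pow_eq_one {x : L} (hx : x ≠ 0) {N : ℕ} (h : ∃ κ : K, algebraMap K L κ = x ^ N) :
    cls K x ^ N = 1 := by
  obtain ⟨κ, hκ⟩ := h
  have hκ0 : κ ≠ 0 := by
    rintro rfl
    rw [map_zero] at hκ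
    exact pow_ne_zero N hx hκ.symm
  rw [cls_of hx, ← map_pow, mkq_eq_one]
  refine ⟨Units.mk0 κ hκ0, ?_⟩
  ext
  simpa using hκ

section run

variable [Fintype Q] (A : GA L σ Q)

/-- runs whose states after the first one are in `S` -/
inductive Rn (A : GA L σ Q) (S : Finset Q) : Q → Q → L → Prop
  | nil (q : Q) : Rn A S q q 1
  | cons {a : σ} {p r q : Q} {c : L} (h : A.M a p r ≠ 0) (hr : r ∈ S) (hc : Rn A S r q c) :
      Rn A S p q (A.M a p r * c)

theorem Rn.run {A : GA L σ Q} {S : Finset Q} {p q : Q} {c : L} (h : Rn A S p q c) :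
    ∃ w, A.Run w p q c := by
  induction h with
  | nil q => exact ⟨[], GA.Run.nil q⟩
  | @cons a p r q c h hr hc ih =>
    obtain ⟨w, hw⟩ := ih
    exact ⟨a :: w, GA.Run.cons h hw⟩

theorem Rn.ne {A : GA L σ Q} {S : Finset Q} {p q : Q} {c : L} (h : Rn A S p q c) : c ≠ 0 := by
  induction h with
  | nil q => exact one_ne_zero
  | cons h hr hc ih => exact mul_ne_zero h ih

theorem Rn.snoc {A : GA L σ Q} {S : Finset Q} {p q r : Q} {c : L} {a : σ} (h : Rn A S p q c)
    (hM : A.M a q r ≠ 0) (hr : r ∈ S) : Rn A S p r (c * A.M a q r) := by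
  induction h with
  | nil q =>
    rw [one_mul, ← mul_one (A.M a q r)]
    exact Rn.cons hM hr (Rn.nil r)
  | cons h hr' hc ih =>
    rw [mul_assoc]
    exact Rn.cons h hr' (ih hM)

variable [DecidableEq Q]

/-- split at the last visit -/
theorem Rn.split {A : GA L σ Q} {S : Finset Q} {p q : Q} {c : L} (h : Rn A S p q c) (r : Q) :
    Rn A (S.erase r) p q c ∨ ∃ c1 c2, Rn A S p r c1 ∧ Rn A (S.erase r) r q c2 ∧ c = c1 * c2 := by
  induction h with
  | nil q => exact Or.inl (Rn.nil q)
  | @cons a p x q c h hx hc ih =>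
    rcases ih with ih | ⟨c1, c2, h1, h2, rfl⟩
    · by_cases hxr : x = r
      · subst hxr
        right
        refine ⟨A.M a p x, c, ?_, ih, rfl⟩
        rw [← mul_one (A.M a p x)]
        exact Rn.cons h hx (Rn.nil x)
      · exact Or.inl (Rn.cons h (Finset.mem_erase.2 ⟨hxr, hx⟩) ih)
    · right
      exact ⟨A.M a p x * c1, c2, Rn.cons h hx h1, h2, by ring⟩

end run

/-- the elements of exponent `N` in a finitely generated abelian group are finitely many -/
theorem finite_pow {G : Type} [CommGroup G] (S : Set G) (hS : S.Finite) (N : ℕ) (hN : 1 ≤ N) :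
    {x : G | x ∈ Subgroup.closure S ∧ x ^ N = 1}.Finite := by
  classical
  let Γ := Subgroup.closure S
  have hfg : Group.FG Γ := (Group.fg_iff_subgroup_fg Γ).2 ⟨hS.toFinset, by simp [Γ]⟩
  have hfg2 : AddGroup.FG (Additive Γ) := (GroupFG.iff_add_fg).1 hfg
  have : Module.Finite ℤ (Additive Γ) := Module.Finite.iff_addGroup_fg.2 hfg2
  let T : Submodule ℤ (Additive Γ) := Submodule.torsionBy ℤ (Additive Γ) (N : ℤ)
  have hT : Finite T := by
    apply Module.finite_of_fg_torsion
    intro x
    refine ⟨⟨(N : ℤ), ?_⟩, ?_⟩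
    · rw [mem_nonZeroDivisors_iff_ne_zero]
      exact_mod_cast (by omega : N ≠ 0)
    · have := x.2
      rw [Submodule.mem_torsionBy_iff] at this
      exact Subtype.ext this
  let F : T → G := fun t => ((Additive.toMul (t : Additive Γ) : Γ) : G)
  refine (Set.finite_range F).subset ?_
  rintro x ⟨hx, hxN⟩
  refine ⟨⟨Additive.ofMul ⟨x, hx⟩, ?_⟩, rfl⟩
  rw [Submodule.mem_torsionBy_iff]
  have h1 : (⟨x, hx⟩ : Γ) ^ N = 1 := by
    ext
    simpa using hxN
  have h2 := congrArg Additive.ofMul h1
  rw [ofMul_pow, ofMul_one] at h2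
  exact_mod_cast h2

section fin

variable [Finite σ] [Fintype Q] (A : GA L σ Q) (N : ℕ)

/-- the classes of the weights of the transitions -/
def gens (K : Type) {L σ Q : Type} [Field K] [Field L] [Algebra K L] (A : GA L σ Q) :
    Set (Qt K L) := Set.range fun t : σ × Q × Q => cls K (A.M t.1 t.2.1 t.2.2)

/-- the possible classes of closed runs -/
def Tor (K : Type) {L σ Q : Type} [Field K] [Field L] [Algebra K L] (A : GA L σ Q) (N : ℕ) :
    Set (Qt K L) := {x | x ∈ Subgroup.closure (gens K A) ∧ x ^ N = 1}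

theorem tor_fin (hN : 1 ≤ N) : (Tor K A N).Finite :=
  finite_pow (G := Qt K L) (gens K A) (Set.finite_range _) N hN

omit [Finite σ] [Fintype Q] in
theorem one_tor : (1 : Qt K L) ∈ Tor K A N := ⟨one_mem _, one_pow _⟩

omit [Finite σ] in
theorem Rn.mem {A : GA L σ Q} {S : Finset Q} {p q : Q} {c : L} (h : Rn A S p q c) :
    cls K c ∈ Subgroup.closure (gens K A) := by
  induction h with
  | nil q => rw [cls_one]; exact one_mem _
  | @cons a p r q c h hr hc ih =>
    rw [cls_mul h hc.ne]
    exact mul_mem (Subgroup.subset_closure ⟨(a, p, r), rfl⟩) ih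

omit [Finite σ] in
theorem Rn.tor {A : GA L σ Q} {N : ℕ}
    (hE : ∀ w q c, w ≠ [] → A.Run w q q c → ∃ κ : K, algebraMap K L κ = c ^ N)
    {S : Finset Q} {q : Q} {c : L} (h : Rn A S q q c) : cls K c ∈ Tor K A N := by
  refine ⟨h.mem, ?_⟩
  obtain ⟨w, hw⟩ := h.run
  by_cases hw0 : w = []
  · subst hw0
    cases hw
    rw [cls_one, one_pow]
  · exact cls_pow_eq_one h.ne (hE w q c hw0 hw)

/-- the classes of the runs from `p` to `q` -/
def X (K : Type) {L σ Q : Type} [Field K] [Field L] [Algebra K L] (A : GA L σ Q) (S : Finset Q)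
    (p q : Q) : Set (Qt K L) := {x | ∃ c, Rn A S p q c ∧ x = cls K c}

theorem X_fin {A : GA L σ Q} {N : ℕ} (hN : 1 ≤ N)
    (hE : ∀ w q c, w ≠ [] → A.Run w q q c → ∃ κ : K, algebraMap K L κ = c ^ N)
    (S : Finset Q) : ∀ p q : Q, (X K A S p q).Finite := by
  classical
  induction S using Finset.strongInduction with
  | H S ih =>
    intro p q
    have hfin : (({1} : Set (Qt K L)) ∪ ⋃ t : σ × {r // r ∈ S},
        Set.image2 (fun u v => cls K (A.M t.1 p t.2) * (u * v)) (Tor K A N)
          (X K A (S.erase t.2) t.2 q)).Finite := by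
      refine (Set.finite_singleton 1).union (Set.finite_iUnion fun t => ?_)
      exact Set.Finite.image2 _ (tor_fin A N hN) (ih _ (Finset.erase_ssubset t.2.2) _ _)
    refine hfin.subset ?_
    rintro x ⟨c, hc, rfl⟩
    cases hc with
    | nil q => left; rw [cls_one]; rfl
    | @cons a p r q c h hr hc =>
      right
      rw [Set.mem_iUnion]
      refine ⟨(a, ⟨r, hr⟩), ?_⟩
      rw [cls_mul h hc.ne]
      rcases hc.split r with h1 | ⟨c1, c2, h1, h2, rfl⟩
      · exact ⟨1, one_tor A N, cls K c, ⟨c, h1, rfl⟩, by simp only [one_mul]⟩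
      · refine ⟨cls K c1, h1.tor hE, cls K c2, ⟨c2, h2, rfl⟩, ?_⟩
        rw [cls_mul h1.ne h2.ne]

/-- the reachable pairs -/
def Reach (K : Type) {L σ Q : Type} [Field K] [Field L] [Algebra K L] [Fintype Q]
    (A : GA L σ Q) : Set (Q × Qt K L) :=
  {s | ∃ q0 c, A.I q0 ≠ 0 ∧ Rn A Finset.univ q0 s.1 c ∧ s.2 = cls K (A.I q0 * c)}

theorem reach_fin {A : GA L σ Q} {N : ℕ} (hN : 1 ≤ N)
    (hE : ∀ w q c, w ≠ [] → A.Run w q q c → ∃ κ : K, algebraMap K L κ = c ^ N) :
    (Reach K A).Finite := by
  have hfin : (⋃ t : Q × Q, (fun x => (t.2, cls K (A.I t.1) * x)) ''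
      (X K A Finset.univ t.1 t.2)).Finite :=
    Set.finite_iUnion fun t => (X_fin hN hE _ _ _).image _
  refine hfin.subset ?_
  rintro ⟨q, x⟩ ⟨q0, c, hI, hc, hx⟩
  rw [Set.mem_iUnion]
  refine ⟨(q0, q), cls K c, ⟨c, hc, rfl⟩, ?_⟩
  simp only at hx
  rw [hx, cls_mul hI hc.ne]

omit [Finite σ] in
theorem reach_init {A : GA L σ Q} {q : Q} (h : A.I q ≠ 0) : (q, cls K (A.I q)) ∈ Reach K A :=
  ⟨q, 1, h, Rn.nil q, by simp⟩

omit [Finite σ] in
theorem reach_step {A : GA L σ Q} {s : Q × Qt K L} (hs : s ∈ Reach K A) {a : σ} {r : Q}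
    (h : A.M a s.1 r ≠ 0) : (r, s.2 * cls K (A.M a s.1 r)) ∈ Reach K A := by
  obtain ⟨q0, c, hI, hc, hx⟩ := hs
  refine ⟨q0, c * A.M a s.1 r, hI, hc.snoc h (Finset.mem_univ _), ?_⟩
  simp only
  rw [hx, ← mul_assoc, cls_mul (mul_ne_zero hI hc.ne) h]

end fin

section aut

variable [Fintype Q] (A : GA L σ Q) (pr : L →ₗ[K] K) [Fintype (Reach K A)]

open Classical in
/-- the automaton over the subfield -/
noncomputable def dn (A : GA L σ Q) (pr : L →ₗ[K] K) : GA K σ (Reach K A) where
  I s := if A.I s.1.1 ≠ 0 ∧ s.1.2 = cls K (A.I s.1.1) then pr (A.I s.1.1 / rep s.1.2) else 0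
  M a s t := if A.M a s.1.1 t.1.1 ≠ 0 ∧ t.1.2 = s.1.2 * cls K (A.M a s.1.1 t.1.1) then
    pr (rep s.1.2 * A.M a s.1.1 t.1.1 / rep t.1.2) else 0
  F s := pr (rep s.1.2 * A.F s.1.1)

variable (hpr : ∀ κ : K, pr (algebraMap K L κ) = κ)

include hpr

theorem pr_div {x y : L} (hx : x ≠ 0) (hy : y ≠ 0) (h : cls K x = cls K y) (z : L) :
    pr (x / y) * pr (y * z) = pr (x * z) := by
  obtain ⟨κ, rfl⟩ := cls_eq hx hy h
  rw [mul_div_assoc, div_self hy, mul_one, hpr, mul_assoc, ← Algebra.smul_def, map_smul,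
    smul_eq_mul]

theorem dn_vec (w : List σ) : ∀ s : Reach K A,
    (dn A pr).vec w s = pr (rep s.1.2 * A.vec w s.1.1) := by
  classical
  induction w with
  | nil => intro s; rfl
  | cons a w ih =>
    intro s
    simp only [GA.vec]
    rw [Finset.mul_sum, map_sum, ← Finset.sum_fiberwise Finset.univ
      (fun t : Reach K A => t.1.1)]
    refine Finset.sum_congr rfl fun r _ => ?_
    by_cases hM : A.M a s.1.1 r = 0
    · rw [hM, zero_mul, mul_zero, map_zero]
      refine Finset.sum_eq_zero fun t ht => ?_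
      rw [Finset.mem_filter] at ht
      have : (dn A pr).M a s t = 0 := by
        unfold dn
        simp only
        rw [if_neg]
        rw [ht.2]
        exact fun h => h.1 hM
      rw [this, zero_mul]
    · let t0 : Reach K A := ⟨(r, s.1.2 * cls K (A.M a s.1.1 r)), reach_step s.2 hM⟩
      rw [Finset.sum_eq_single t0]
      · have h1 : (dn A pr).M a s t0 = pr (rep s.1.2 * A.M a s.1.1 r / rep t0.1.2) := by
          unfold dn
          simp only
          rw [if_pos]
          exact ⟨hM, rfl⟩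
        rw [h1, ih, pr_div pr hpr (mul_ne_zero (rep_ne _) hM) (rep_ne _)]
        · rw [mul_assoc]
        · rw [cls_rep, cls_mul (rep_ne _) hM, cls_rep]
      · intro t ht hne
        rw [Finset.mem_filter] at ht
        have : (dn A pr).M a s t = 0 := by
          unfold dn
          simp only
          rw [if_neg]
          rintro ⟨_, h2⟩
          apply hne
          apply Subtype.ext
          apply Prod.ext
          · exact ht.2
          · rw [h2, ht.2]
        rw [this, zero_mul]
      · intro h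
        exact (h (Finset.mem_filter.2 ⟨Finset.mem_univ t0, rfl⟩)).elim

theorem dn_val (w : List σ) : (dn A pr).val w = pr (A.val w) := by
  classical
  unfold GA.val
  rw [map_sum, ← Finset.sum_fiberwise Finset.univ (fun t : Reach K A => t.1.1)]
  refine Finset.sum_congr rfl fun r _ => ?_
  by_cases hM : A.I r = 0
  · rw [hM, zero_mul, map_zero]
    refine Finset.sum_eq_zero fun t ht => ?_
    rw [Finset.mem_filter] at ht
    have : (dn A pr).I t = 0 := by
      unfold dn
      simp only
      rw [if_neg]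
      rw [ht.2]
      exact fun h => h.1 hM
    rw [this, zero_mul]
  · let t0 : Reach K A := ⟨(r, cls K (A.I r)), reach_init hM⟩
    rw [Finset.sum_eq_single t0]
    · have h1 : (dn A pr).I t0 = pr (A.I r / rep t0.1.2) := by
        unfold dn
        simp only
        rw [if_pos]
        exact ⟨hM, rfl⟩
      rw [h1, dn_vec A pr hpr, pr_div pr hpr hM (rep_ne _)]
      rw [cls_rep]
    · intro t ht hne
      rw [Finset.mem_filter] at ht
      have : (dn A pr).I t = 0 := by
        unfold dn
        simp only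
        rw [if_neg]
        rintro ⟨_, h2⟩
        apply hne
        apply Subtype.ext
        apply Prod.ext
        · exact ht.2
        · rw [h2, ht.2]
      rw [this, zero_mul]
    · intro h
      exact (h (Finset.mem_filter.2 ⟨Finset.mem_univ t0, rfl⟩)).elim

omit hpr

theorem dn_cnt (w : List σ) : ∀ s : Reach K A, (dn A pr).cnt w s ≤ A.cnt w s.1.1 := by
  classical
  induction w with
  | nil =>
    intro s
    simp only [GA.cnt]
    by_cases hF : A.F s.1.1 = 0
    · have : (dn A pr).F s = 0 := by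
        show pr (rep s.1.2 * A.F s.1.1) = 0
        rw [hF, mul_zero, map_zero]
      simp [this]
    · rw [if_pos hF]
      split_ifs <;> simp
  | cons a w ih =>
    intro s
    simp only [GA.cnt]
    rw [← Finset.sum_fiberwise Finset.univ (fun t : Reach K A => t.1.1)]
    refine Finset.sum_le_sum fun r _ => ?_
    have key : ∀ t : Reach K A, t.1.1 = r → (dn A pr).M a s t ≠ 0 →
        A.M a s.1.1 r ≠ 0 ∧ t.1.2 = s.1.2 * cls K (A.M a s.1.1 r) := by
      intro t ht h
      unfold dn at h
      simp only at h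
      rw [ne_eq, ite_eq_right_iff, Classical.not_imp, ht] at h
      exact h.1
    by_cases hM : A.M a s.1.1 r = 0
    · rw [if_neg (not_not.2 hM)]
      refine (Finset.sum_eq_zero fun t ht => ?_).le
      rw [Finset.mem_filter] at ht
      rw [if_neg]
      exact fun h => (key t ht.2 h).1 hM
    · rw [if_pos hM]
      let t0 : Reach K A := ⟨(r, s.1.2 * cls K (A.M a s.1.1 r)), reach_step s.2 hM⟩
      rw [Finset.sum_eq_single t0]
      · split_ifs
        · exact ih t0
        · exact Nat.zero_le _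
      · intro t ht hne
        rw [Finset.mem_filter] at ht
        rw [if_neg]
        intro h
        apply hne
        apply Subtype.ext
        exact Prod.ext ht.2 (key t ht.2 h).2
      · intro h
        exact (h (Finset.mem_filter.2 ⟨Finset.mem_univ t0, rfl⟩)).elim

theorem dn_amb (w : List σ) : (dn A pr).amb w ≤ A.amb w := by
  classical
  unfold GA.amb
  rw [← Finset.sum_fiberwise Finset.univ (fun t : Reach K A => t.1.1)]
  refine Finset.sum_le_sum fun r _ => ?_
  have key : ∀ t : Reach K A, t.1.1 = r → (dn A pr).I t ≠ 0 →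
      A.I r ≠ 0 ∧ t.1.2 = cls K (A.I r) := by
    intro t ht h
    unfold dn at h
    simp only at h
    rw [ne_eq, ite_eq_right_iff, Classical.not_imp, ht] at h
    exact h.1
  by_cases hM : A.I r = 0
  · rw [if_neg (not_not.2 hM)]
    refine (Finset.sum_eq_zero fun t ht => ?_).le
    rw [Finset.mem_filter] at ht
    rw [if_neg]
    exact fun h => (key t ht.2 h).1 hM
  · rw [if_pos hM]
    let t0 : Reach K A := ⟨(r, cls K (A.I r)), reach_init hM⟩
    rw [Finset.sum_eq_single t0]
    · split_ifs
      · exact dn_cnt A pr w t0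
      · exact Nat.zero_le _
    · intro t ht hne
      rw [Finset.mem_filter] at ht
      rw [if_neg]
      intro h
      apply hne
      apply Subtype.ext
      exact Prod.ext ht.2 (key t ht.2 h).2
    · intro h
      exact (h (Finset.mem_filter.2 ⟨Finset.mem_univ t0, rfl⟩)).elim

end aut

theorem t_DESC : S_DESC := by
  classical
  intro K L σ _ _ _ _ N hN f hf
  obtain ⟨Q, _, A, ⟨C, k, hamb⟩, hE, hval⟩ := hf
  have hfin : (Reach K A).Finite := reach_fin hN hE
  have : Fintype (Reach K A) := hfin.fintype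
  obtain ⟨pr, hpr⟩ := (Algebra.linearMap K L).exists_leftInverse_of_injective
    (LinearMap.ker_eq_bot.2 (algebraMap K L).injective)
  have hpr' : ∀ κ : K, pr (algebraMap K L κ) = κ := fun κ => by
    have := LinearMap.congr_fun hpr κ
    simpa using this
  refine ⟨Reach K A, this, dn A pr, ⟨C, k, fun w => (dn_amb A pr w).trans (hamb w)⟩, fun w => ?_⟩
  rw [dn_val A pr hpr', hval, hpr']

end Pool.Agent.K1H58.PA
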